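import Pool.Agent.H12.IR.PR

/-!
# CH: the Laplacian of a composition
-/

set_option autoImplicit false

open Complex Topology Filter InnerProductSpace MeasureTheory Laplacian

namespace Pool.Agent.H12.IR

theorem ch : Pool.Agent.H86.IR.T_CH := by
  intro G z ψ hG hψ
  have hψ1 : Differentiable ℝ ψ := hψ.differentiable (by norm_num)
  have hψ2 : Differentiable ℝ (deriv ψ) := by
    have h : ContDiff ℝ (1 + 1) ψ := by
      have h2 : (1 + 1 : WithTop ℕ∞) = 2 := by norm_num
      rw [h2]
      exact hψ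
    exact ((contDiff_succ_iff_deriv.1 h).2.2).differentiable (by norm_num)
  have h1 : fderiv ℝ (fun w => ψ (G w)) =ᶠ[𝓝 z] fun w => deriv ψ (G w) • fderiv ℝ G w := by
    filter_upwards [diff_near hG] with w h1
    exact ((hψ1 (G w)).hasDerivAt.comp_hasFDerivAt w h1.hasFDerivAt).fderiv
  have hGd : HasFDerivAt G (fderiv ℝ G z) z := (hG.differentiableAt (by norm_num)).hasFDerivAt
  have hG2 := (diff_fderiv hG).hasFDerivAt
  have h0 : HasFDerivAt (fun w => deriv ψ (G w)) (deriv (deriv ψ) (G z) • fderiv ℝ G z) z :=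
    (hψ2 (G z)).hasDerivAt.comp_hasFDerivAt z hGd
  have h2 : HasFDerivAt (fun w => deriv ψ (G w) • fderiv ℝ G w) _ z := h0.smul hG2
  have h3 : fderiv ℝ (fderiv ℝ (fun w => ψ (G w))) z = _ :=
    h1.fderiv_eq.trans h2.fderiv
  rw [laplacian_eq, laplacian_eq, h3]
  simp only [add_apply, smul_apply,
    ContinuousLinearMap.smulRight_apply, smul_eq_mul]
  ring

end Pool.Agent.H12.IR
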