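import Pool.Agent.H86.IR.Targets1

/-!
# PR: the Laplacian of a product
-/

set_option autoImplicit false

open Complex Topology Filter InnerProductSpace MeasureTheory Laplacian

namespace Pool.Agent.H12.IR

theorem laplacian_eq (φ : ℂ → ℝ) (z : ℂ) : (Δ φ) z =
    fderiv ℝ (fderiv ℝ φ) z 1 1 + fderiv ℝ (fderiv ℝ φ) z I I := by
  rw [InnerProductSpace.laplacian_eq_iteratedFDeriv_complexPlane]
  simp [iteratedFDeriv_two_apply]

/-- regularity of the derivative -/
theorem diff_fderiv {f : ℂ → ℝ} {z : ℂ} (hf : ContDiffAt ℝ 2 f z) :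
    DifferentiableAt ℝ (fderiv ℝ f) z :=
  (hf.fderiv_right (m := 1) (by norm_num)).differentiableAt (by norm_num)

theorem diff_near {f : ℂ → ℝ} {z : ℂ} (hf : ContDiffAt ℝ 2 f z) :
    ∀ᶠ w in 𝓝 z, DifferentiableAt ℝ f w := by
  filter_upwards [hf.eventually (by norm_num)] with w hw
  exact hw.differentiableAt (by norm_num)

theorem pr : Pool.Agent.H86.IR.T_PR := by
  intro f g z hf hg
  have h1 : fderiv ℝ (fun w => f w * g w) =ᶠ[𝓝 z]
      fun w => f w • fderiv ℝ g w + g w • fderiv ℝ f w := by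
    filter_upwards [diff_near hf, diff_near hg] with w h1 h2
    exact fderiv_fun_mul h1 h2
  have hfd : HasFDerivAt f (fderiv ℝ f z) z := (hf.differentiableAt (by norm_num)).hasFDerivAt
  have hgd : HasFDerivAt g (fderiv ℝ g z) z := (hg.differentiableAt (by norm_num)).hasFDerivAt
  have hf2 := (diff_fderiv hf).hasFDerivAt
  have hg2 := (diff_fderiv hg).hasFDerivAt
  have h2 : HasFDerivAt (fun w => f w • fderiv ℝ g w + g w • fderiv ℝ f w) _ z :=
    (hfd.smul hg2).add (hgd.smul hf2)
  have h3 : fderiv ℝ (fderiv ℝ (fun w => f w * g w)) z = _ :=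
    h1.fderiv_eq.trans h2.fderiv
  rw [laplacian_eq, laplacian_eq, laplacian_eq, h3]
  simp only [add_apply, smul_apply,
    ContinuousLinearMap.smulRight_apply, smul_eq_mul]
  ring

end Pool.Agent.H12.IR
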